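import Pool.Agent.Lib.MP_d48993_lc.AE.Gr.LimF
import Pool.Agent.Lib.MP_d48993_lc.AE.Rig.Tru
import Pool.Agent.Lib.MP_d48993_lc.AE.Node.Kills

/-!
# The true future of a treated tuple (finding 4190, K3)

The generic tuple `O` passes treated states of some block (`Pas`); its true future, together with
followed texts, is an extension in the sense of the contract.
-/

set_option autoImplicit false

namespace Pool.Agent.Lib.MP_d48993_lc.Gr

open Pool.Agent.Lib.MP_d48993_lc.Node
open MP_8c048d_lc (pre join RecF length_pre pre_take)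
open Txt (ht st mC mN mR ltN okN Leg)
open Tup

/-- The strings `σ` pass treated states `y` of the root `t` (in the strings `mu`), their advice,
and the first root of the next block behind a Rise. -/
structure Pas (P : Par) (G : Gph) (J : ℕ → Bool) (t : ℕ) (y : ℕ → St) (mu σ : ℕ → List ℕ) :
    Prop where
  trd : ∀ s < P.p, J s = false → Trd P G t s (y s)
  vs : ∀ s < P.p, J s = false → VStr (G.d (t + 1) s).W o (mu s) (y s)
  px : ∀ s < P.p, J s = false → mu s ++ adv G t y s <+: σ s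
  rise : ∀ s < P.p, J s = false → ∀ ρ, ρ <+: σ s →
    (endd o ρ).1 = G.u (fst P.p (blk P.p t + 1)) s → Rise (y s) (endd o ρ)
  long : ∀ s < P.p, J s = false → G.u (fst P.p (blk P.p t + 1)) s ≤ (endd o (σ s)).1

/-- The sets which the generic tuple has to decide. -/
def DK (P : Par) (G : Gph) (J : ℕ → Bool) (S : ℕ → Prop) (N : ℕ) (μ : List (List ℕ)) : Prop :=
  ∃ (t : ℕ) (y : ℕ → St) (mu : ℕ → List ℕ), N ≤ blk P.p t ∧ 3 ≤ blk P.p t ∧ S (blk P.p t) ∧
    Pas P G J t y mu (fun s => μ.getD s [])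

variable {P : Par} {G : Gph} {J : ℕ → Bool} {H : ℕ} {V O : ℕ → ℕ → ℕ}

theorem exists_pas (hDn : DensStatement) (hP : P.Ok) (hL : Lim4 P G) {S : ℕ → Prop}
    (hS : ∀ N, ∃ n ≥ N, S n ∧ ∀ s < P.p, JJ n s = J s) {N : ℕ}
    (hD : Dcd P.p (Ps P G) (kn P J) O (DK P G J S N)) :
    ∃ (t : ℕ) (y : ℕ → St) (mu : ℕ → List ℕ) (K : ℕ → ℕ), N ≤ blk P.p t ∧ 3 ≤ blk P.p t ∧
      S (blk P.p t) ∧ Pas P G J t y mu (fun s => pre (O s) (K s)) := by
  obtain ⟨μ, h1, h2, h3⟩ := hD
  rcases h3 with ⟨t, y, mu, h4, h5, h6, h7⟩ | h3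
  · choose! K hK using h2
    refine ⟨t, y, mu, K, h4, h5, h6, ⟨h7.trd, h7.vs, fun s hs hJ => ?_, fun s hs hJ => ?_,
      fun s hs hJ => ?_⟩⟩
    · rw [← hK s hs]; exact h7.px s hs hJ
    · rw [← hK s hs]; exact h7.rise s hs hJ
    · rw [← hK s hs]; exact h7.long s hs hJ
  · exfalso
    have hkn : ∀ s < P.p, J s = false → s ∉ kn P J := by
      intro s _ hJ h
      rw [(mem_kn.1 h).2] at hJ
      exact absurd hJ (by simp)
    obtain ⟨N0, hN0⟩ := hDn P hP G hL J (fun s => μ.getD s [])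
      (fun s hs hJ => (h1.2 s hs).2 (hkn s hs hJ))
    obtain ⟨n, hn, hSn, hJn⟩ := hS (max (max N N0) 3)
    have h3n : 3 ≤ n := le_trans (le_max_right _ _) hn
    have hn' : max N N0 ≤ n := le_trans (le_max_left _ _) hn
    obtain ⟨t, y, mu, σ', ht, h4⟩ := hN0 n (le_trans (le_max_right _ _) hn') h3n hJn
    subst ht
    refine h3 ((List.range P.p).map fun s => if s ∈ kn P J then [] else σ' s)
      ⟨by simp, fun s hs => ?_⟩ (fun s hs => ?_) ⟨t, y, mu, le_trans (le_max_left _ _) hn', h3n, hSn,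
        ?_⟩
    · rw [getD_map _ hs]
      constructor
      · intro h; rw [if_pos h]
      · intro h
        rw [if_neg h]
        refine (h4 s hs ?_).1
        by_contra hJ
        exact h (mem_kn.2 ⟨hs, by simpa using hJ⟩)
    · rw [getD_map _ hs]
      by_cases h : s ∈ kn P J
      · rw [if_pos h, (h1.2 s hs).1 h]
      · rw [if_neg h]
        obtain ⟨a1, a2, a3, a4, a5, -⟩ := h4 s hs (by
          by_contra hJ
          exact h (mem_kn.2 ⟨hs, by simpa using hJ⟩))
        exact a2.trans ((List.prefix_append _ _).trans a5)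
    · refine ⟨fun s hs hJ => (h4 s hs hJ).2.2.1, fun s hs hJ => (h4 s hs hJ).2.2.2.1,
        fun s hs hJ => ?_, fun s hs hJ => ?_, fun s hs hJ => ?_⟩
      · show _ <+: ((List.range P.p).map _).getD s []
        rw [getD_map _ hs, if_neg (hkn s hs hJ)]
        exact (h4 s hs hJ).2.2.2.2.1
      · show ∀ ρ, ρ <+: ((List.range P.p).map _).getD s [] → _
        rw [getD_map _ hs, if_neg (hkn s hs hJ)]
        exact (h4 s hs hJ).2.2.2.2.2.1
      · show _ ≤ (endd o (((List.range P.p).map _).getD s [])).1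
        rw [getD_map _ hs, if_neg (hkn s hs hJ)]
        exact (h4 s hs hJ).2.2.2.2.2.2

/-! ## Roots along strings -/

theorem endd_append (σ τ : List ℕ) (x : St) : endd x (σ ++ τ) = endd (endd x σ) τ := by
  rcases List.eq_nil_or_concat τ with rfl | ⟨τ', g, rfl⟩
  · simp [endd]
  · simp [endd]

theorem endd_snoc (σ : List ℕ) (g : ℕ) (x : St) : endd x (σ ++ [g]) = tgt g := by
  simp [endd]

theorem vstr_split {W : World} {x z : St} {σ τ : List ℕ} (h : VStr W x (σ ++ τ) z) :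
    VStr W x σ (endd x σ) ∧ VStr W (endd x σ) τ z := by
  obtain ⟨h1, h2⟩ := (codes.2.2.2.2.2.2.2.2.2.2.2.1 x σ τ z).1 h.1
  exact ⟨⟨h1, fun g hg => h.2 g (List.mem_append_left _ hg)⟩,
    ⟨h2, fun g hg => h.2 g (List.mem_append_right _ hg)⟩⟩

theorem vstr_end' {W : World} {x z : St} {σ : List ℕ} (h : VStr W x σ z) : z = endd x σ :=
  codes.2.2.2.2.2.2.2.2.2.2.1 x σ z h.1

/-- The roots increase strictly. -/
theorem root_lt {s : ℕ} {ν ν' : List ℕ} (h : LEs G s ν') (hp : ν <+: ν') (hne : ν ≠ ν') :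
    (endd o ν).1 < (endd o ν').1 := by
  obtain ⟨t, ht⟩ := h
  obtain ⟨r, rfl⟩ := hp
  rcases List.eq_nil_or_concat r with rfl | ⟨τ, g, rfl⟩
  · simp at hne
  · have hfit : ∀ x t', (G.d t s).W.edge x t' → Fit x t' := fun _ _ h => h.1
    have h1 := (vstr_split ht).2
    have h2 : endd o (ν ++ τ.concat g) = tgt g := by
      rw [List.concat_eq_append, ← List.append_assoc, endd_snoc]
    rw [h2]
    have hg := (basic codes _ hfit).1 g (h1.2 g (by simp))
    have h3 := (hfit _ _ hg).2.2.1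
    have h4 := Kills.src_ge (basic codes) hfit _ _ _ h1.1 h1.2 g (by simp)
    omega

theorem root_le {s : ℕ} {ν ν' : List ℕ} (h : LEs G s ν') (hp : ν <+: ν') :
    (endd o ν).1 ≤ (endd o ν').1 := by
  by_cases hne : ν = ν'
  · rw [hne]
  · exact (root_lt h hp hne).le

theorem les_pfx {s : ℕ} {ν ν' : List ℕ} (h : LEs G s ν') (hp : ν <+: ν') : LEs G s ν := by
  obtain ⟨t, ht⟩ := h
  obtain ⟨r, rfl⟩ := hp
  exact ⟨t, (vstr_split ht).1⟩

/-- The last state of the initial segment which ends with the given symbol. -/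
theorem exists_pfx {σ : List ℕ} {g : ℕ} (hg : g ∈ σ) (x : St) :
    ∃ ν, ν ++ [g] <+: σ ∧ endd x (ν ++ [g]) = tgt g := by
  obtain ⟨a, b, rfl⟩ := List.append_of_mem hg
  exact ⟨a, ⟨b, by simp⟩, endd_snoc _ _ _⟩

/-! ## Patterns -/

theorem tx_congr {J J' : ℕ → Bool} (h : ∀ s < P.p, J s = J' s) : Tx P J H = Tx P J' H := by
  funext c
  unfold Tx
  by_cases hc : P.p ≤ c
  · simp [hc]
  · rw [h c (by omega)]

theorem xh_congr {J J' : ℕ → Bool} (h : ∀ s < P.p, J s = J' s) :
    XH P J H V O = XH P J' H V O := by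
  unfold XH
  rw [tx_congr h]

/-- A lower bound for the string of a tuple. -/
theorem pre_fj (hp : 0 < P.p) {τ : List (List ℕ)} {F : ℕ → ℕ → ℕ} {m : ℕ}
    (h : ∀ c < P.p + P.q, Prs P H c = true → ∃ k ≥ m, τ.getD c [] = pre (F c) k) :
    pre (jn P H F) m <+: fj P H τ := by
  rw [fj_pre hp fun c hc h1 => (h c hc h1).imp fun k hk => hk.2]
  refine pre_mono _ ?_
  have h1 : m ≤ tlen P H τ := (le_tlen hp _ _).2 fun c hc h1 => by
    obtain ⟨k, hk, e⟩ := h c hc h1
    rw [e, length_pre]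
    exact hk
  calc m ≤ tlen P H τ := h1
    _ = 1 * tlen P H τ := (one_mul _).symm
    _ ≤ _ := Nat.mul_le_mul_right _ (by omega)

/-! ## The true future -/

/-- The true future of a treated tuple is an extension. -/
theorem fut_true (hRg : RegStatement) (hP : P.Ok) (hL : Lim4 P G) {t : ℕ} {y : ℕ → St}
    {mu : ℕ → List ℕ} {K : ℕ → ℕ} (hO : ∀ s < P.p, J s = false → ∀ k, RL P G s (pre (O s) k))
    (hpas : Pas P G J t y mu (fun s => pre (O s) (K s))) {it : ℕ → Itm} {k : ℕ → Cnd3}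
    {t' : ℕ} (ht' : t + 1 ≤ t')
    (htx : ∀ c, Tx P J H c = true → Txt.Le (HT P (it c)) (ht (HT P (it c)) (G.fin t (it c)).1)
      (G.fin t (it c)).1 (k c).1)
    (hcn : ∀ s < P.p, J s = true → CV (G.d t' s).W (LT P (it s)) (k s) ∧
      CLe (LT P (it s)) (G.fin t (it s)) (k s) ∧ LgC (G.cur t (it s)) (k s))
    {L : ℕ} (hLK : ∀ s < P.p, K s ≤ L)
    (hLv : ∀ s < P.p, J s = false → VStr (G.d t' s).W o (pre (O s) L) (endd o (pre (O s) L))) :
    ∃ nu : ℕ → List ℕ, (∀ s < P.p, J s = false → cat mu (adv G t y) nu s = pre (O s) L) ∧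
      AExt P J H 0 (G.d (t + 1)) y (adv G t y) it (fun c => G.cur t (it c))
        (fun c => G.fin t (it c)) (G.d t') nu k := by
  have hM := mono codes (basic codes)
  have hex : ∀ s, ∃ ν : List ℕ, s < P.p → J s = false → mu s ++ adv G t y s ++ ν = pre (O s) L := by
    intro s
    by_cases hs : s < P.p ∧ J s = false
    · obtain ⟨ν, hν⟩ := (hpas.px s hs.1 hs.2).trans (pre_mono (O s) (hLK s hs.1))
      exact ⟨ν, fun _ _ => hν⟩
    · exact ⟨[], fun h1 h2 => (hs ⟨h1, h2⟩).elim⟩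
  choose nu hnu using hex
  refine ⟨nu, hnu, ⟨fun s hs => ⟨hL.good _ s hs, LimF.dext hM hL hs _ _ ht'⟩,
    fun s hs hJ => ?_, hcn, fun c hc => ?_⟩⟩
  · have h1 := hLv s hs hJ
    rw [← hnu s hs hJ] at h1
    have h2 := vstr_split h1
    have h3 : endd o (mu s ++ adv G t y s) = endd (y s) (adv G t y s) := by
      rw [endd_append, ← vstr_end' (hpas.vs s hs hJ)]
    rw [h3] at h2
    have h4 : endd o (mu s ++ adv G t y s ++ nu s) = endd (endd (y s) (adv G t y s)) (nu s) := by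
      rw [endd_append, h3]
    rw [h4] at h2
    refine ⟨h2.2, fun g hg => ?_⟩
    obtain ⟨a, ⟨b, hb⟩, -⟩ := exists_pfx hg o
    have hmu : endd o (mu s) = y s := (vstr_end' (hpas.vs s hs hJ)).symm
    have hroot : (endd o (mu s)).1 = G.u t s := by rw [hmu]; exact (hpas.trd s hs hJ).root
    have h5 : mu s ++ adv G t y s ++ (a ++ [g]) <+: pre (O s) L := by
      rw [← hnu s hs hJ, ← hb]
      exact ⟨b, by simp⟩
    have h6 := (hRg P hP G hL s hs).2.1 (pre (O s) L) (mu s) (mu s ++ adv G t y s ++ (a ++ [g])) t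
      (hO s hs hJ L) ⟨adv G t y s ++ (a ++ [g]), by simp⟩ h5 hroot (fun ρ hρ hρ' => ?_)
    · rw [hmu] at h6
      have h7 : endd o (mu s ++ adv G t y s ++ (a ++ [g])) = tgt g := by
        rw [← List.append_assoc]
        exact endd_snoc _ _ _
      rw [h7] at h6
      exact h6
    · rw [hmu]
      have hK : pre (O s) (K s) <+: pre (O s) L := pre_mono (O s) (hLK s hs)
      rcases List.prefix_or_prefix_of_prefix hρ hK with h7 | h7
      · exact hpas.rise s hs hJ ρ h7 hρ'
      · by_cases hne : pre (O s) (K s) = ρ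
        · exact hpas.rise s hs hJ ρ (by show ρ <+: pre (O s) (K s); rw [hne]) hρ'
        · have h8 := root_lt (les_pfx (hO s hs hJ L).1 hρ) h7 hne
          have h9 : G.u (fst P.p (blk P.p t + 1)) s ≤ (endd o (pre (O s) (K s))).1 :=
            hpas.long s hs hJ
          omega
  · rw [Nat.add_zero]
    exact htx c hc

end Pool.Agent.Lib.MP_d48993_lc.Gr
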