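import Pool.Agent.Lib.MP_d48993_lc.AE.Kill.Kdef
import Pool.Agent.Lib.MP_d48993_lc.AE.Kill.Knev
import Pool.Agent.Lib.MP_d48993_lc.AE.Gr.Ad
import Pool.Agent.Lib.MP_d48993_lc.AE.Real.Kext

/-!
# Module KFIN (finding 4190, K3, K4): if the real of a pattern computes a member of the tree of a
known colour `b` then it computes a path of the tree of one of the labels of `V b`
-/

set_option autoImplicit false

namespace Pool.Agent.Lib.MP_d48993_lc.Gr

open Pool.Agent.Lib.MP_d48993_lc.Node
open MP_8c048d_lc (pre join RecF length_pre pre_take)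
open Txt (ht st mC mN mR ltN okN Leg)
open Tup

/-- The real `V` follows the item `I` in the block `n`; `c` is a chain of later conditions over the
labels of the item, and `V` displays their images. -/
structure KFol (P : Par) (G : Gph) (n : ℕ) (I : Itm) (V : ℕ → ℕ) (c : ℕ → Cnd3) (tt : ℕ → ℕ) :
    Prop where
  cv : ∀ l, CV (G.d (tt l) I.col).W (LT P I) (c l)
  le : ∀ l, CLe (LT P I) (c l) (c (l + 1))
  px : ∀ l, ∃ k, (c l).1 = pre V k
  unb : ∀ k, ∃ l, k ≤ (c l).1.length
  disp : ∀ l, ∀ e ∈ (c l).2, (∃ p, (e.1, e.2.1, p) ∈ (c 0).2) ∨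
    ∃ q, (c 0).1.length ≤ q ∧ Fact (V q) e.1 e.2.1
  fut : ∀ l t, blk P.p t = n → CLe (LT P I) (G.fin t I) (c l) ∧ LgC (G.cur t I) (c l) ∧
    Txt.Le (HT P I) (ht (HT P I) (G.fin t I).1) (G.fin t I).1 (c l).1

/-- In the block `n` all present texts follow; the labels of `V b` satisfy `Q`. -/
def KS (P : Par) (G : Gph) (J : ℕ → Bool) (H : ℕ) (V : ℕ → ℕ → ℕ) (b : ℕ) (Q : ℕ → Prop)
    (n : ℕ) : Prop :=
  (∀ s < P.p, JJ n s = J s) ∧ ∃ it : ℕ → Itm,
    (∀ c, Tx P J H c = true → (it c).col = c ∧ Fol P G n (it c) (V c)) ∧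
    (∃ c tt, KFol P G n (it b) (V b) c tt) ∧ ∀ e ∈ (it b).E, Q e

variable {P : Par} {G : Gph} {J : ℕ → Bool} {H : ℕ} {V O : ℕ → ℕ → ℕ}

theorem eq_pre' {F : ℕ → ℕ} {σ : List ℕ} {n : ℕ} (h : σ <+: pre F n) : ∃ k, σ = pre F k := by
  refine ⟨σ.length, ?_⟩
  have h1 : σ.length ≤ n := by
    have := h.length_le
    rwa [length_pre] at this
  rw [List.prefix_iff_eq_take, pre_take, min_eq_left h1] at h
  exact h

theorem getD_tup (P : Par) (J : ℕ → Bool) (H : ℕ) (σ : ℕ → List ℕ) (k : ℕ → Cnd3) {c : ℕ}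
    (hc : c < P.p + P.q) : (tup P J H σ k).getD c [] = if Tx P J H c then (k c).1 else σ c :=
  getD_range_map _ _ hc

theorem mem_pre {F : ℕ → ℕ} {n v : ℕ} (h : v ∈ pre F n) : ∃ k < n, v = F k := by
  unfold pre at h
  obtain ⟨k, hk, rfl⟩ := List.mem_map.1 h
  exact ⟨k, List.mem_range.1 hk, rfl⟩

theorem mem_pre_of {F : ℕ → ℕ} {n k : ℕ} (h : k < n) : F k ∈ pre F n :=
  List.mem_map.2 ⟨k, List.mem_range.2 h, rfl⟩

/-- The symbols of a string are valid. -/
theorem vl_of_les {s : ℕ} {F : ℕ → ℕ} (h : ∀ k, LEs G s (pre F k)) (k : ℕ) : VL G s (F k) := by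
  obtain ⟨t, ht⟩ := h (k + 1)
  exact ⟨t, ht.2 _ (mem_pre_of (Nat.lt_succ_self k))⟩

/-- The core of KILL. -/
theorem kcore (hRg : RegStatement) (hDn : DensStatement) (hP : P.Ok) (hL : Lim4 P G) {b : ℕ}
    (hb : b < P.p) (hJb : J b = true) {Q : ℕ → Prop}
    (hS : ∀ N, ∃ n ≥ N, KS P G J H V b Q n)
    (hO : ∀ s < P.p, J s = false → ∀ k, RL P G s (pre (O s) k))
    (hD : ∀ N, Dcd P.p (Ps P G) (kn P J) O (DK P G J (KS P G J H V b Q) N))
    {O' : ℕ → ℕ} (hr : Red O' (XH P J H V O)) (hO' : ∀ k, LEs G b (pre O' k)) :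
    ∃ e, Q e ∧ HasPath (join (V b) O') (P.Tr e) := by
  have hM := mono codes (basic codes)
  obtain ⟨i, hi⟩ := (hP.enum.spec _ _).1 hr
  obtain ⟨t, y, mu, K, hN, h3, ⟨hJ', it, hit, ⟨c, tt, hkf⟩, hQ⟩, hpas⟩ :=
    exists_pas hDn hP hL (S := KS P G J H V b Q) (N := i + 1)
      (fun N => by
        obtain ⟨n, hn, h⟩ := hS N
        exact ⟨n, hn, h, h.1⟩) (hD (i + 1))
  have hbn : i < blk P.p t := hN
  -- the pattern of the block
  rw [← xh_congr hJ'] at hi
  have hTx : Tx P (JJ (blk P.p t)) H = Tx P J H := tx_congr hJ'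
  have hJb' : JJ (blk P.p t) b = true := (hJ' b hb).trans hJb
  have hpas' : Pas P G (JJ (blk P.p t)) t y mu (fun s => pre (O s) (K s)) :=
    ⟨fun s hs h => hpas.trd s hs ((hJ' s hs).symm.trans h),
      fun s hs h => hpas.vs s hs ((hJ' s hs).symm.trans h),
      fun s hs h => hpas.px s hs ((hJ' s hs).symm.trans h),
      fun s hs h => hpas.rise s hs ((hJ' s hs).symm.trans h),
      fun s hs h => hpas.long s hs ((hJ' s hs).symm.trans h)⟩
  rw [← hTx] at hit
  have hO1 : ∀ s < P.p, JJ (blk P.p t) s = false → ∀ k, RL P G s (pre (O s) k) :=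
    fun s hs h => hO s hs ((hJ' s hs).symm.trans h)
  clear hpas hO hD hS
  generalize hX : XH P (JJ (blk P.p t)) H V O = X at hi
  -- the treated tuple
  have htt : Ttup P G t H y mu it := ⟨h3, fun s hs h => ⟨hpas'.trd s hs h, hpas'.vs s hs h⟩,
    fun c' hc' => ⟨(hit c' hc').2.itm, (hit c' hc').1⟩⟩
  have hTb : Tx P (JJ (blk P.p t)) H b = true := by
    unfold Tx Prs
    simp [hb, hJb']
  -- the values of the items are initial segments of the texts
  have hfin : ∀ c', Tx P (JJ (blk P.p t)) H c' = true → ∃ k, (G.fin t (it c')).1 = pre (V c') k := by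
    intro c' hc'
    obtain ⟨t₁, k, -, h5, -, h6⟩ := (hit c' hc').2.fut 0
    have h7 := (h6 t rfl).1.px
    rw [h5] at h7
    exact eq_pre' h7
  rcases (hL.ctr t).kill H y mu it htt i hbn b hb hJb' with hbad | hnev
  · -- the value contains an invalid symbol
    exfalso
    obtain ⟨v, hv, h4, h5⟩ := hbad
    have h6 : ∃ j, fj P H (tup P (JJ (blk P.p t)) H (cat mu (adv G t y) (fun _ => []))
        (fun c => G.fin t (it c))) = pre X j := by
      rw [← hX]
      refine ⟨_, fj_pre hP.pos fun c' hc' h7 => ?_⟩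
      rw [getD_tup _ _ _ _ _ hc']
      rcases prs_cases (J := JJ (blk P.p t)) h7 with h8 | ⟨h8, h9, h10⟩
      · rw [if_pos h8, if_pos h8]
        exact hfin c' h8
      · rw [h8]
        have h11 : JJ (blk P.p t) c' = false := by
          by_contra h
          exact h10 (mem_kn.2 ⟨h9, by simpa using h⟩)
        have h12 := hpas'.px c' h9 h11
        show ∃ k, cat mu (adv G t y) (fun _ => []) c' = pre (O c') k
        unfold cat
        rw [List.append_nil]
        exact eq_pre' h12
    obtain ⟨j, hj⟩ := h6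
    unfold evF ev at hv
    rw [hj, hi.1 j] at hv
    obtain ⟨k, -, rfl⟩ := mem_pre hv
    have h7 := LimF.vs_loc (basic codes) hM hL hb (vl_of_les hO' k) h4
    exact h5 ((basic codes _ (Kills.dfit _)).1 _ h7)
  · -- all new edges are edges of images
    have hitb : ItV P G t (it b) := hL.itv t _ (hit b hTb).2.itm
    have hcolb : (it b).col = b := (hit b hTb).1
    obtain ⟨hcvb, hleb, hlgb, -⟩ := hitb.pt (by rw [hcolb]; exact hb)
    rw [hcolb] at hcvb
    have hkx : Kext.KX (LT P (it b)) (fun m => G.d m b) (V b) tt c O' (G.d (t + 1) b).N := by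
      refine ⟨fun m => (hL.good m b hb).wf, Kext.te_fin (fun e _ => hP.trb e), ?_, fun l => ?_,
        hkf.le, hkf.px, hkf.unb, hkf.disp, hO', fun k hk => ?_⟩
      · intro σ τ h1 h2
        cases τ with
        | nil => rw [List.prefix_nil.1 h1]; exact h2
        | cons e τ =>
          cases σ with
          | nil => trivial
          | cons e' σ =>
            obtain ⟨r, hr⟩ := h1
            simp only [List.cons_append, List.cons.injEq] at hr
            obtain ⟨rfl, rfl⟩ := hr
            exact ⟨h2.1, hP.trt e' _ _ (List.prefix_append _ _) h2.2⟩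
      · have := hkf.cv l
        rw [hcolb] at this
        exact this
      · -- a long stage
        obtain ⟨m, hm⟩ := hi.2 (k + 1)
        obtain ⟨l, hl⟩ := hkf.unb m
        have hF : ∀ c', ∃ (t₁ : ℕ) (kc : Cnd3), Tx P (JJ (blk P.p t)) H c' = true →
            m ≤ kc.1.length ∧ (∃ j, kc.1 = pre (V c') j) ∧
            (c' < P.p → ∀ t' ≥ t₁, CV (G.d t' c').W (LT P (it c')) kc) ∧
            Txt.Le (HT P (it c')) (ht (HT P (it c')) (G.fin t (it c')).1) (G.fin t (it c')).1 kc.1 ∧
            (c' < P.p → CLe (LT P (it c')) (G.fin t (it c')) kc ∧ LgC (G.cur t (it c')) kc) ∧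
            (c' = b → kc = c l) := by
          intro c'
          by_cases hc' : Tx P (JJ (blk P.p t)) H c' = true
          · by_cases hcb : c' = b
            · subst hcb
              refine ⟨tt l, c l, fun _ => ⟨hl, hkf.px l, fun _ t' ht' => ?_,
                (hkf.fut l t rfl).2.2, fun _ => ⟨(hkf.fut l t rfl).1, (hkf.fut l t rfl).2.1⟩,
                fun _ => rfl⟩⟩
              have h5 := hkf.cv l
              rw [hcolb] at h5
              exact Kills.cv_mono (fun g hg => LimF.vs_mono hM hL hb ht' hg) h5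
            · obtain ⟨t₁, k', h4, h5, h6, h7⟩ := (hit c' hc').2.fut m
              rw [(hit c' hc').1] at h6 h7
              exact ⟨t₁, k', fun _ => ⟨h4, ⟨_, h5⟩, h6, (h7 t rfl).1, (h7 t rfl).2,
                fun h => (hcb h).elim⟩⟩
          · exact ⟨0, (G.fin t (it 0)), fun h => (hc' h).elim⟩
        choose t₁ kc hF using hF
        -- the length
        let L : ℕ := (Finset.range P.p).sup K + m
        have hLK : ∀ s < P.p, K s ≤ L := fun s hs =>
          (Finset.le_sup (f := K) (Finset.mem_range.2 hs)).trans (Nat.le_add_right _ _)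
        have hLm : m ≤ L := Nat.le_add_left _ _
        -- the stage
        have hex : ∀ s, ∃ t₂, s < P.p → JJ (blk P.p t) s = false → ∀ t' ≥ t₂,
            VStr (G.d t' s).W o (pre (O s) L) (endd o (pre (O s) L)) := by
          intro s
          by_cases hs : s < P.p ∧ JJ (blk P.p t) s = false
          · obtain ⟨t₂, h5⟩ := (hO1 s hs.1 hs.2 L).1
            exact ⟨t₂, fun _ _ t' ht' => LimF.vstr_mono hM hL hs.1 ht' h5⟩
          · exact ⟨0, fun h1 h2 => (hs ⟨h1, h2⟩).elim⟩
        choose t₂ ht₂ using hex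
        let t' : ℕ := (Finset.range P.p).sup t₁ + (Finset.range P.p).sup t₂ + (t + 1) +
          (tgt (O' k)).1
        have ht1 : ∀ s < P.p, t₁ s ≤ t' := fun s hs => by
          have := Finset.le_sup (f := t₁) (Finset.mem_range.2 hs)
          show t₁ s ≤ _ + _ + _ + _
          omega
        have ht2 : ∀ s < P.p, t₂ s ≤ t' := fun s hs => by
          have := Finset.le_sup (f := t₂) (Finset.mem_range.2 hs)
          show t₂ s ≤ _ + _ + _ + _
          omega
        have ht3 : t + 1 ≤ t' := by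
          show t + 1 ≤ _ + _ + _ + _
          omega
        have ht4 : (tgt (O' k)).1 ≤ t' := Nat.le_add_left _ _
        obtain ⟨nu, hnu, hext⟩ := fut_true hRg hP hL hO1 hpas' (it := it) (k := kc) ht3
          (fun c' hc' => (hF c' hc').2.2.2.1)
          (fun s hs h => by
            have hT : Tx P (JJ (blk P.p t)) H s = true := by
              unfold Tx Prs
              simp [hs, h]
            obtain ⟨-, -, h5, -, h6, -⟩ := hF s hT
            exact ⟨h5 hs t' (ht1 s hs), (h6 hs).1, (h6 hs).2⟩)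
          hLK (fun s hs h => ht₂ s hs h t' (ht2 s hs))
        -- the value
        have hval : pre X m <+: fj P H (tup P (JJ (blk P.p t)) H (cat mu (adv G t y) nu) kc) := by
          rw [← hX]
          refine pre_fj hP.pos fun c' hc' h7 => ?_
          rw [getD_tup _ _ _ _ _ hc']
          rcases prs_cases (J := JJ (blk P.p t)) h7 with h8 | ⟨h8, h9, h10⟩
          · rw [if_pos h8, if_pos h8]
            obtain ⟨h5, ⟨j, hj⟩, -⟩ := hF c' h8
            refine ⟨j, ?_, hj⟩
            rw [hj, length_pre] at h5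
            exact h5
          · rw [h8]
            have h11 : JJ (blk P.p t) c' = false := by
              by_contra h
              exact h10 (mem_kn.2 ⟨h9, by simpa using h⟩)
            exact ⟨L, hLm, hnu c' h9 h11⟩
        have hmem : O' k ∈ ev P i H (tup P (JJ (blk P.p t)) H (cat mu (adv G t y) nu) kc) := by
          unfold ev
          refine (hP.enum.mono i _ _ hval).subset ?_
          rw [hi.1 m]
          exact mem_pre_of hm
        have hke := knev adoptBG codes (basic codes) hM (cv := fun c => G.fin t (it c))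
          (bs := fun c => G.cur t (it c)) (γ := G.d (t + 1)) (mu := mu) (i := i) hb hJb'
          (hL.good _ b hb) hcvb hleb hlgb hnev hext (O' k) hmem hk
          (lt_of_le_of_lt ht4 (LimF.lt_N hL hb t'))
        obtain ⟨-, -, -, -, -, h5⟩ := hF b hTb
        rw [h5 rfl] at hke
        exact ⟨l, hke⟩
    obtain ⟨e, he, hp⟩ := Kext.kext_te hP.trc hkx
    exact ⟨e, hQ e he, hp⟩

end Pool.Agent.Lib.MP_d48993_lc.Gr
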